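import Mathlib

/-!
Regular self-complementary graphs that are not strongly regular although every vertex is fixed by an
isomorphism onto the complement, and every edge is traversed by one: they exist on `n` vertices for
every `n ≥ 13` all of whose prime power parts are `1` modulo `4`.
-/

namespace Pool.Agent.Results.MP_a93e77_co.AllOrders

/-- `P` is an isomorphism-permutation of `G`: an isomorphism from `G` onto its complement. -/
def IsoPerm {V : Type*} (G : SimpleGraph V) (P : Equiv.Perm V) : Prop :=
  ∀ u v, u ≠ v → (G.Adj u v ↔ ¬ G.Adj (P u) (P v))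

/-- `F(G) = V(G)` -/
def FullF {V : Type*} (G : SimpleGraph V) : Prop := ∀ v, ∃ P, IsoPerm G P ∧ P v = v

/-- `N(G) = E(G)` -/
def FullN {V : Type*} (G : SimpleGraph V) : Prop :=
  ∀ u v, G.Adj u v → ∃ P, IsoPerm G P ∧ (P u = v ∨ P v = u)

/-- A counterexample on `n` vertices -/
def Bad (n : ℕ) : Prop :=
  ∃ (V : Type) (_ : Fintype V) (_ : DecidableEq V) (G : SimpleGraph V) (_ : DecidableRel G.Adj),
    Fintype.card V = n ∧ (∃ d, G.IsRegularOfDegree d) ∧ (∃ P, IsoPerm G P) ∧ FullF G ∧ FullN G ∧
      ¬ ∃ k ℓ μ, G.IsSRGWith n k ℓ μ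

section ring

variable {R : Type} [CommRing R] [Fintype R] [DecidableEq R]

/-- sign functions -/
structure Sgn (i : R) (f : R → ℤ) : Prop where
  pm : ∀ x, x ≠ 0 → f x = 1 ∨ f x = -1
  rot : ∀ x, f (i * x) = - f x

variable {i : R} {f : R → ℤ}

theorem Sgn.zero (h : Sgn i f) : f 0 = 0 := by
  have := h.rot 0
  rw [mul_zero] at this
  omega

theorem Sgn.even (hi : i * i = -1) (h : Sgn i f) (x : R) : f (-x) = f x := by
  have h1 := h.rot (i * x)
  rw [h.rot x, ← mul_assoc, hi, neg_one_mul] at h1
  rw [h1, neg_neg]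

/-- the graph -/
def Gr (hi : i * i = -1) (h : Sgn i f) : SimpleGraph R where
  Adj x y := f (y - x) = 1
  symm := ⟨fun x y hxy => by
    rw [← neg_sub, h.even hi]
    exact hxy⟩
  loopless := ⟨fun x hx => by
    rw [sub_self, h.zero] at hx
    exact absurd hx (by decide)⟩

instance (hi : i * i = -1) (h : Sgn i f) : DecidableRel (Gr hi h).Adj :=
  fun x y => inferInstanceAs (Decidable (f (y - x) = 1))

/-- the isomorphism onto the complement -/
def Pt (hi : i * i = -1) (t : R) : Equiv.Perm R where
  toFun x := i * x + t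
  invFun x := -i * (x - t)
  left_inv x := by
    change -i * (i * x + t - t) = x
    have : -i * (i * x + t - t) = -(i * i) * x := by ring
    rw [this, hi]; ring
  right_inv x := by
    change i * (-i * (x - t)) + t = x
    have : i * (-i * (x - t)) + t = -(i * i) * (x - t) + t := by ring
    rw [this, hi]; ring

theorem Pt_iso (hi : i * i = -1) (h : Sgn i f) (t : R) : IsoPerm (Gr hi h) (Pt hi t) := by
  intro u v huv
  change f (v - u) = 1 ↔ ¬ f ((i * v + t) - (i * u + t)) = 1
  have e : (i * v + t) - (i * u + t) = i * (v - u) := by ring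
  rw [e, h.rot]
  have := h.pm (v - u) (sub_ne_zero.2 (Ne.symm huv))
  omega

theorem Gr_F (hi : i * i = -1) (h : Sgn i f) : FullF (Gr hi h) := by
  intro v
  refine ⟨Pt hi (v - i * v), Pt_iso hi h _, ?_⟩
  change i * v + (v - i * v) = v
  ring

theorem Gr_N (hi : i * i = -1) (h : Sgn i f) : FullN (Gr hi h) := by
  intro u v _
  refine ⟨Pt hi (v - i * u), Pt_iso hi h _, Or.inl ?_⟩
  change i * u + (v - i * u) = v
  ring

theorem Gr_reg (hi : i * i = -1) (h : Sgn i f) :
    (Gr hi h).IsRegularOfDegree (Finset.univ.filter fun z : R => f z = 1).card := by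
  intro x
  rw [← SimpleGraph.card_neighborFinset_eq_degree]
  apply Finset.card_bij' (fun y _ => y - x) (fun z _ => z + x)
  · intro y hy
    rw [SimpleGraph.mem_neighborFinset] at hy
    rw [Finset.mem_filter]
    exact ⟨Finset.mem_univ _, hy⟩
  · intro z hz
    rw [Finset.mem_filter] at hz
    rw [SimpleGraph.mem_neighborFinset]
    change f (z + x - x) = 1
    rw [add_sub_cancel_right]
    exact hz.2
  · intro y _
    ring
  · intro z _
    ring

/-- convolution -/
def cv (f g : R → ℤ) (x : R) : ℤ := ∑ y, f y * g (x - y)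

theorem cv_assoc (f g h : R → ℤ) (x : R) : cv (cv f g) h x = cv f (cv g h) x := by
  unfold cv
  simp only [Finset.sum_mul, Finset.mul_sum]
  rw [Finset.sum_comm]
  apply Finset.sum_congr rfl
  intro z _
  refine Fintype.sum_equiv (Equiv.subRight z) _ _ ?_
  intro y
  change f z * g (y - z) * h (x - y) = f z * (g (y - z) * h (x - z - (y - z)))
  have : x - z - (y - z) = x - y := by ring
  rw [this, mul_assoc]

theorem cv_comm (f g : R → ℤ) (x : R) : cv f g x = cv g f x := by
  unfold cv
  refine Fintype.sum_equiv (Equiv.subLeft x) _ _ ?_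
  intro y
  change f y * g (x - y) = g (x - y) * f (x - (x - y))
  rw [sub_sub_cancel, mul_comm]

theorem sum_zero (hi : i * i = -1) (h : Sgn i f) : ∑ x, f x = 0 := by
  have e : ∑ x, f x = ∑ x, f (i * x) := by
    refine Fintype.sum_equiv (Pt hi 0).symm _ _ ?_
    intro x
    change f x = f (i * (-i * (x - 0)))
    have : i * (-i * (x - 0)) = -(i * i) * x := by ring
    rw [this, hi]; simp
  simp only [h.rot, Finset.sum_neg_distrib] at e
  omega

/-- the autocorrelation of a strongly regular sign function -/
theorem srg_cv (hi : i * i = -1) (h : Sgn i f) {n k ℓ μ : ℕ} (hsrg : (Gr hi h).IsSRGWith n k ℓ μ)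
    (hn : 1 < Fintype.card R) {x : R} (hx : x ≠ 0) : cv f f x = -1 := by
  set A : R → ℤ := fun x => ((Finset.univ.filter fun y : R => f y = 1 ∧ f (y - x) = 1).card : ℤ) with hA
  -- common neighbours
  have hcn : ∀ x, (Fintype.card ((Gr hi h).commonNeighbors 0 x) : ℤ) = A x := by
    intro x
    rw [hA]
    simp only
    rw [Fintype.card_subtype]
    congr 2
    ext y
    simp only [Finset.mem_filter, Finset.mem_univ, true_and]
    rw [SimpleGraph.mem_commonNeighbors]
    change f (y - 0) = 1 ∧ f (y - x) = 1 ↔ _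
    rw [sub_zero]
  have hA1 : ∀ x, f x = 1 → A x = ℓ := by
    intro x hfx
    rw [← hcn]
    have := hsrg.of_adj 0 x (by
      change f (x - 0) = 1
      rw [sub_zero, hfx])
    exact_mod_cast this
  have hA2 : ∀ x, x ≠ 0 → f x ≠ 1 → A x = μ := by
    intro x hx hfx
    rw [← hcn]
    have := hsrg.of_not_adj (Ne.symm hx) (by
      change ¬ f (x - 0) = 1
      rwa [sub_zero])
    exact_mod_cast this
  have hB : ∀ x, ((Finset.univ.filter fun y : R => f y = -1 ∧ f (y - x) = -1).card : ℤ) = A (i * x) := by
    intro x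
    rw [hA]
    simp only
    congr 1
    apply Finset.card_bij' (fun y _ => i * y) (fun y _ => -i * y)
    · intro y hy
      rw [Finset.mem_filter] at hy ⊢
      refine ⟨Finset.mem_univ _, ?_, ?_⟩
      · rw [h.rot, hy.2.1]; rfl
      · rw [← mul_sub, h.rot, hy.2.2]; rfl
    · intro y hy
      rw [Finset.mem_filter] at hy ⊢
      have e1 : f (-i * y) = - f y := by rw [neg_mul, h.even hi, h.rot]
      have e2 : f (-i * y - x) = - f (y - i * x) := by
        have e3 : -i * y - x = -i * (y - i * x) := by
          have : -i * (y - i * x) = -i * y + (i * i) * x := by ring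
          rw [this, hi]; ring
        rw [e3, neg_mul, h.even hi, h.rot]
      refine ⟨Finset.mem_univ _, ?_, ?_⟩
      · rw [e1, hy.2.1]
      · rw [e2, hy.2.2]
    · intro y _
      have : -i * (i * y) = -(i * i) * y := by ring
      rw [this, hi]; simp
    · intro y _
      have : i * (-i * y) = -(i * i) * y := by ring
      rw [this, hi]; simp
  have hAB : ∀ x, x ≠ 0 → A x + A (i * x) = ℓ + μ := by
    intro x hx
    have hix : i * x ≠ 0 := by
      intro h0
      apply hx
      have : i * (i * x) = -x := by rw [← mul_assoc, hi]; ring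
      rw [h0, mul_zero] at this
      exact neg_eq_zero.1 this.symm
    rcases h.pm x hx with h1 | h1
    · rw [hA1 x h1, hA2 (i * x) hix (by rw [h.rot, h1]; decide)]
    · rw [hA2 x hx (by rw [h1]; decide), hA1 (i * x) (by rw [h.rot, h1]; rfl)]
      ring
  -- the correlation
  have hcorr : ∀ x, x ≠ 0 → cv f f x = 2 * (ℓ + μ) - (Fintype.card R - 2) := by
    intro x hx
    have e1 : cv f f x = ∑ y, (2 * (if f y = 1 ∧ f (y - x) = 1 then (1 : ℤ) else 0) +
        2 * (if f y = -1 ∧ f (y - x) = -1 then (1 : ℤ) else 0) - 1 + (if y = 0 then 1 else 0) +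
        (if y = x then 1 else 0)) := by
      unfold cv
      apply Finset.sum_congr rfl
      intro y _
      have e2 : f (x - y) = f (y - x) := by rw [← neg_sub, h.even hi]
      rw [e2]
      by_cases hy0 : y = 0
      · subst hy0
        rw [h.zero, if_neg (by simp), if_neg (by simp), if_pos rfl, if_neg (Ne.symm hx)]
        ring
      · by_cases hyx : y = x
        · subst hyx
          rw [sub_self, h.zero, if_neg (by simp), if_neg (by simp), if_neg hy0, if_pos rfl]
          ring
        · rw [if_neg hy0, if_neg hyx]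
          rcases h.pm y hy0 with h1 | h1 <;> rcases h.pm (y - x) (sub_ne_zero.2 hyx) with h2 | h2 <;>
            rw [h1, h2] <;> norm_num
    rw [e1]
    simp only [Finset.sum_add_distrib, Finset.sum_sub_distrib, ← Finset.mul_sum, Finset.sum_boole,
      Finset.sum_const, Finset.card_univ, nsmul_eq_mul, mul_one]
    have h6 : ((Finset.univ.filter fun y : R => y = 0).card : ℤ) = 1 := by
      rw [Finset.filter_eq', if_pos (Finset.mem_univ _), Finset.card_singleton]; rfl
    have h7 : ((Finset.univ.filter fun y : R => y = x).card : ℤ) = 1 := by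
      rw [Finset.filter_eq', if_pos (Finset.mem_univ _), Finset.card_singleton]; rfl
    have h3 := hB x
    have h4 := hAB x hx
    have h5 : ((Finset.univ.filter fun y : R => f y = 1 ∧ f (y - x) = 1).card : ℤ) = A x := rfl
    rw [h3, h5, h6, h7]
    linarith
  have h0 : cv f f 0 = Fintype.card R - 1 := by
    unfold cv
    have : ∀ y, f y * f (0 - y) = 1 - (if y = 0 then 1 else 0) := by
      intro y
      rw [zero_sub, h.even hi]
      by_cases hy : y = 0
      · rw [hy, h.zero, if_pos rfl]; rfl
      · rw [if_neg hy]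
        rcases h.pm y hy with h1 | h1 <;> rw [h1] <;> norm_num
    simp only [this, Finset.sum_sub_distrib, Finset.sum_const, Finset.card_univ, nsmul_eq_mul,
      mul_one, Finset.sum_ite_eq', Finset.mem_univ, if_true]
  have hsum : ∑ x, cv f f x = 0 := by
    unfold cv
    rw [Finset.sum_comm]
    have : ∀ y, ∑ x, f y * f (x - y) = 0 := by
      intro y
      rw [← Finset.mul_sum]
      have : ∑ x, f (x - y) = ∑ x, f x := Fintype.sum_equiv (Equiv.subRight y) _ _ (fun x => rfl)
      rw [this, sum_zero hi h, mul_zero]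
    exact Finset.sum_eq_zero fun y _ => this y
  set K : ℤ := 2 * (ℓ + μ) - (Fintype.card R - 2) with hK
  have hall : ∀ x, cv f f x = K + (if x = 0 then (Fintype.card R - 1 - K : ℤ) else 0) := by
    intro x
    by_cases hx : x = 0
    · rw [if_pos hx, hx, h0]; ring
    · rw [if_neg hx, hcorr x hx]; ring
  simp only [hall, Finset.sum_add_distrib, Finset.sum_const, Finset.card_univ, nsmul_eq_mul,
    Finset.sum_ite_eq', Finset.mem_univ, if_true] at hsum
  have hfac : ((Fintype.card R : ℤ) - 1) * (K + 1) = 0 := by linarith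
  have hn' : ((Fintype.card R : ℤ) - 1) ≠ 0 := by
    have : (1 : ℤ) < Fintype.card R := by exact_mod_cast hn
    omega
  rw [hcorr x hx]
  have := (mul_eq_zero.1 hfac).resolve_left hn'
  omega

/-- the flip of a sign function on the orbit of `a` -/
def orbS (i a : R) : Finset R := {a, -a, i * a, -(i * a)}

theorem orbS_card (i a : R) : (orbS i a).card ≤ 4 := Finset.card_le_four

theorem orbS_rot (hi : i * i = -1) {a x : R} (h : x ∈ orbS i a) : i * x ∈ orbS i a := by
  unfold orbS at *
  simp only [Finset.mem_insert, Finset.mem_singleton] at *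
  rcases h with h | h | h | h
  · rw [h]; simp
  · rw [h]; simp
  · rw [h, ← mul_assoc, hi]; simp
  · rw [h, mul_neg, ← mul_assoc, hi]; simp

theorem orbS_rot_iff (hi : i * i = -1) {a x : R} : i * x ∈ orbS i a ↔ x ∈ orbS i a := by
  constructor
  · intro h
    have := orbS_rot hi (orbS_rot hi (orbS_rot hi h))
    have e : i * (i * (i * (i * x))) = (i * i) * (i * i) * x := by ring
    rw [e, hi] at this
    simpa using this
  · exact orbS_rot hi

def gg (i : R) (f : R → ℤ) (a : R) (x : R) : ℤ := if x ∈ orbS i a then f x else 0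

def fl (i : R) (f : R → ℤ) (a : R) (x : R) : ℤ := f x - 2 * gg i f a x

theorem fl_sgn (hi : i * i = -1) (h : Sgn i f) (a : R) : Sgn i (fl i f a) where
  pm x hx := by
    unfold fl gg
    split_ifs
    · rcases h.pm x hx with h1 | h1
      · right; rw [h1]; rfl
      · left; rw [h1]; rfl
    · rcases h.pm x hx with h1 | h1
      · left; rw [h1]; rfl
      · right; rw [h1]; rfl
  rot x := by
    unfold fl gg
    rw [h.rot]
    by_cases hx : x ∈ orbS i a
    · rw [if_pos hx, if_pos ((orbS_rot_iff hi).2 hx)]; ring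
    · rw [if_neg hx, if_neg (fun h => hx ((orbS_rot_iff hi).1 h))]; ring

theorem abs_f_le (h : Sgn i f) (x : R) : |f x| ≤ 1 := by
  by_cases hx : x = 0
  · rw [hx, h.zero]; simp
  · rcases h.pm x hx with h1 | h1 <;> rw [h1] <;> simp

theorem gg_abs (h : Sgn i f) (a x : R) : |gg i f a x| ≤ 1 := by
  unfold gg
  split_ifs
  · exact abs_f_le h x
  · simp

theorem gg_abs_sum (h : Sgn i f) (a : R) : ∑ x, |gg i f a x| ≤ 4 := by
  have e : ∑ x, |gg i f a x| = ∑ x ∈ orbS i a, |f x| := by
    rw [← Finset.sum_filter_add_sum_filter_not Finset.univ (fun x => x ∈ orbS i a)]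
    have e1 : ∑ x ∈ Finset.univ.filter (fun x => ¬ x ∈ orbS i a), |gg i f a x| = 0 := by
      apply Finset.sum_eq_zero
      intro x hx
      rw [Finset.mem_filter] at hx
      unfold gg
      rw [if_neg hx.2, abs_zero]
    rw [e1, add_zero]
    have e2 : Finset.univ.filter (fun x => x ∈ orbS i a) = orbS i a := by
      ext x; simp
    rw [e2]
    apply Finset.sum_congr rfl
    intro x hx
    unfold gg
    rw [if_pos hx]
  rw [e]
  calc ∑ x ∈ orbS i a, |f x| ≤ ∑ x ∈ orbS i a, (1 : ℤ) := Finset.sum_le_sum fun x _ => abs_f_le h x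
    _ = (orbS i a).card := by simp
    _ ≤ 4 := by exact_mod_cast orbS_card i a

theorem gg_sum (hi : i * i = -1) (h : Sgn i f) (a : R) : ∑ x, gg i f a x = 0 := by
  have e : ∑ x, gg i f a x = ∑ x, gg i f a (i * x) := by
    refine Fintype.sum_equiv (Pt hi 0).symm _ _ ?_
    intro x
    change gg i f a x = gg i f a (i * (-i * (x - 0)))
    have : i * (-i * (x - 0)) = -(i * i) * x := by ring
    rw [this, hi]; simp
  have e2 : ∀ x, gg i f a (i * x) = - gg i f a x := by
    intro x
    unfold gg
    by_cases hx : x ∈ orbS i a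
    · rw [if_pos hx, if_pos ((orbS_rot_iff hi).2 hx), h.rot]
    · rw [if_neg hx, if_neg (fun h => hx ((orbS_rot_iff hi).1 h)), neg_zero]
  simp only [e2, Finset.sum_neg_distrib] at e
  omega

theorem cv_bound {g h : R → ℤ} {B C : ℤ} (hB : ∀ x, |g x| ≤ B) (hB0 : 0 ≤ B) (hC : ∑ x, |h x| ≤ C) (x : R) :
    |cv g h x| ≤ B * C := by
  rw [cv_comm]
  unfold cv
  calc |∑ y, h y * g (x - y)| ≤ ∑ y, |h y * g (x - y)| := Finset.abs_sum_le_sum_abs _ _
    _ ≤ ∑ y, |h y| * B := by
        apply Finset.sum_le_sum
        intro y _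
        rw [abs_mul]
        exact mul_le_mul_of_nonneg_left (hB _) (abs_nonneg _)
    _ = (∑ y, |h y|) * B := by rw [Finset.sum_mul]
    _ ≤ C * B := mul_le_mul_of_nonneg_right hC hB0
    _ = B * C := mul_comm _ _

theorem flip_bound (hi : i * i = -1) (h : Sgn i f) {a : R} (ha : a ≠ 0)
    (h1 : ∀ x, x ≠ 0 → cv f f x = -1) (h2 : ∀ x, x ≠ 0 → cv (fl i f a) (fl i f a) x = -1) :
    Fintype.card R ≤ 16 := by
  have cv0 : ∀ {f : R → ℤ}, Sgn i f → cv f f 0 = Fintype.card R - 1 := by
    intro f h
    unfold cv
    have : ∀ y, f y * f (0 - y) = 1 - (if y = 0 then 1 else 0) := by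
      intro y
      rw [zero_sub, h.even hi]
      by_cases hy : y = 0
      · rw [hy, h.zero, if_pos rfl]; rfl
      · rw [if_neg hy]
        rcases h.pm y hy with h1 | h1 <;> rw [h1] <;> norm_num
    simp only [this, Finset.sum_sub_distrib, Finset.sum_const, Finset.card_univ, nsmul_eq_mul,
      mul_one, Finset.sum_ite_eq', Finset.mem_univ, if_true]
  set g := gg i f a with hg
  have hfl := fl_sgn hi h a
  have heq : ∀ x, cv f f x = cv (fl i f a) (fl i f a) x := by
    intro x
    by_cases hx : x = 0
    · rw [hx, cv0 h, cv0 hfl]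
    · rw [h1 x hx, h2 x hx]
  have hexp : ∀ x, cv (fl i f a) (fl i f a) x = cv f f x - 4 * cv f g x + 4 * cv g g x := by
    intro x
    have e1 : cv (fl i f a) (fl i f a) x =
        cv f f x - 2 * cv f g x - 2 * cv g f x + 4 * cv g g x := by
      unfold cv fl
      simp only [Finset.mul_sum, ← Finset.sum_sub_distrib, ← Finset.sum_add_distrib]
      apply Finset.sum_congr rfl
      intro y _
      rw [hg]; ring
    rw [e1, cv_comm g f]; ring
  have hfg : cv f g = cv g g := by
    funext x
    have := heq x
    rw [hexp] at this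
    linarith
  have hff : ∀ x, cv f f x = -1 + (if x = 0 then (Fintype.card R : ℤ) else 0) := by
    intro x
    by_cases hx : x = 0
    · rw [if_pos hx, hx, cv0 h]; ring
    · rw [if_neg hx, h1 x hx]; ring
  have key : ∀ x, (Fintype.card R : ℤ) * g x = cv (cv g g) g x := by
    intro x
    have e1 : cv (cv f f) g x = (Fintype.card R : ℤ) * g x := by
      have e2 : cv (cv f f) g x = ∑ y, (-1 + (if y = 0 then (Fintype.card R : ℤ) else 0)) * g (x - y) := by
        unfold cv
        apply Finset.sum_congr rfl
        intro y _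
        have := hff y
        unfold cv at this
        rw [this]
      rw [e2]
      simp only [add_mul, Finset.sum_add_distrib, ite_mul, zero_mul, Finset.sum_ite_eq',
        Finset.mem_univ, if_true, sub_zero, neg_mul, one_mul, Finset.sum_neg_distrib]
      have e3 : ∑ y, g (x - y) = ∑ y, g y := Fintype.sum_equiv (Equiv.subLeft x) _ _ (fun y => rfl)
      rw [e3, hg, gg_sum hi h]; ring
    rw [← e1, cv_assoc, hfg]
    have e4 : cv f (cv g g) x = cv (cv f g) g x := (cv_assoc f g g x).symm
    rw [e4, hfg]
  have hga : |g a| = 1 := by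
    have hm : a ∈ orbS i a := by unfold orbS; simp
    have : g a = f a := by rw [hg]; unfold gg; rw [if_pos hm]
    rw [this]
    rcases h.pm a ha with h1 | h1 <;> rw [h1] <;> simp
  have hb1 : ∀ x, |cv g g x| ≤ 1 * 4 := cv_bound (gg_abs h a) (by norm_num) (gg_abs_sum h a)
  have hb2 := cv_bound (g := cv g g) (h := g) (B := 4) (C := 4) (fun x => by simpa using hb1 x)
    (by norm_num) (gg_abs_sum h a) a
  rw [← key, abs_mul, hga, mul_one] at hb2
  have : (Fintype.card R : ℤ) ≤ 16 := by
    rw [abs_of_nonneg (by positivity)] at hb2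
    linarith
  exact_mod_cast this

/-- existence of sign functions -/
theorem exists_sgn (hi : i * i = -1) (h2 : ∀ x : R, 2 * x = 0 → x = 0) : ∃ f : R → ℤ, Sgn i f := by
  set e : R → ℕ := fun x => (Fintype.equivFin R x : ℕ) with he
  have einj : ∀ x y, e x = e y → x = y := by
    intro x y h
    exact (Fintype.equivFin R).injective (Fin.ext h)
  set m : R → ℕ := fun x => min (e x) (e (-x)) with hm
  have hmneg : ∀ x, m (-x) = m x := by
    intro x
    simp only [hm, neg_neg]
    exact min_comm _ _
  have hcancel : ∀ x : R, (x = i * x ∨ x = -(i * x)) → x = 0 := by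
    intro x hx
    apply h2
    have h3 : x = -x := by
      rcases hx with hx | hx
      · calc x = i * x := hx
          _ = i * (i * x) := congrArg (fun t => i * t) hx
          _ = (i * i) * x := by ring
          _ = -x := by rw [hi]; ring
      · calc x = -(i * x) := hx
          _ = -(i * (-(i * x))) := congrArg (fun t => -(i * t)) hx
          _ = (i * i) * x := by ring
          _ = -x := by rw [hi]; ring
    have : 2 * x = x - (-x) := by ring
    rw [this, ← h3, sub_self]
  have hne : ∀ x, x ≠ 0 → m x ≠ m (i * x) := by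
    intro x hx h
    simp only [hm] at h
    rcases min_choice (e x) (e (-x)) with h1 | h1 <;>
      rcases min_choice (e (i * x)) (e (-(i * x))) with h3 | h3 <;> rw [h1, h3] at h
    · exact hx (hcancel x (Or.inl (einj _ _ h)))
    · exact hx (hcancel x (Or.inr (einj _ _ h)))
    · have := einj _ _ h
      exact hx (hcancel x (Or.inr (by rw [← this, neg_neg])))
    · have := einj _ _ h
      exact hx (hcancel x (Or.inl (neg_injective this)))
  refine ⟨fun x => if x = 0 then 0 else if m x < m (i * x) then 1 else -1, ?_, ?_⟩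
  · intro x hx
    simp only [if_neg hx]
    split_ifs
    · left; rfl
    · right; rfl
  · intro x
    by_cases hx : x = 0
    · simp [hx]
    · have hix : i * x ≠ 0 := by
        intro h0
        apply hx
        have : i * (i * x) = -x := by rw [← mul_assoc, hi]; ring
        rw [h0, mul_zero] at this
        exact neg_eq_zero.1 this.symm
      have hii : m (i * (i * x)) = m x := by
        have : i * (i * x) = -x := by rw [← mul_assoc, hi]; ring
        rw [this, hmneg]
      simp only [if_neg hx, if_neg hix, hii]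
      have := hne x hx
      split_ifs <;> omega

theorem bad_of_ring (hi : i * i = -1) (h2 : ∀ x : R, 2 * x = 0 → x = 0)
    (hc : 17 ≤ Fintype.card R) : Bad (Fintype.card R) := by
  obtain ⟨f, hf⟩ := exists_sgn hi h2
  have hnt : (1 : R) ≠ 0 := by
    intro h0
    have : Subsingleton R := subsingleton_of_zero_eq_one h0.symm
    have := Fintype.card_le_one_iff_subsingleton.2 this
    omega
  have mk : ∀ {f : R → ℤ} (hf : Sgn i f), (¬ ∃ k ℓ μ, (Gr hi hf).IsSRGWith (Fintype.card R) k ℓ μ) →
      Bad (Fintype.card R) := by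
    intro f hf hno
    exact ⟨R, inferInstance, inferInstance, Gr hi hf, inferInstance, rfl, ⟨_, Gr_reg hi hf⟩,
      ⟨Pt hi 0, Pt_iso hi hf 0⟩, Gr_F hi hf, Gr_N hi hf, hno⟩
  by_cases hS : ∃ k ℓ μ, (Gr hi hf).IsSRGWith (Fintype.card R) k ℓ μ
  · refine mk (fl_sgn hi hf 1) ?_
    rintro ⟨k', ℓ', μ', hs'⟩
    obtain ⟨k, ℓ, μ, hs⟩ := hS
    have := flip_bound hi hf hnt (fun x hx => srg_cv hi hf hs (by omega) hx)
      (fun x hx => srg_cv hi (fl_sgn hi hf 1) hs' (by omega) hx)
    omega
  · exact mk hf hS

end ring

/-- order `13` -/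
def f13 (x : ZMod 13) : ℤ :=
  if x = 0 then 0 else if x = 1 ∨ x = 12 ∨ x = 2 ∨ x = 11 ∨ x = 4 ∨ x = 9 then 1 else -1

theorem f13_sgn : Sgn (5 : ZMod 13) f13 where
  pm := by decide
  rot := by decide

theorem bad13 : Bad 13 := by
  have hi : (5 : ZMod 13) * 5 = -1 := by decide
  refine ⟨ZMod 13, inferInstance, inferInstance, Gr hi f13_sgn, inferInstance, ZMod.card 13,
    ⟨_, Gr_reg hi f13_sgn⟩, ⟨Pt hi 0, Pt_iso hi f13_sgn 0⟩, Gr_F hi f13_sgn, Gr_N hi f13_sgn, ?_⟩
  rintro ⟨k, ℓ, μ, hs⟩
  have h1 := srg_cv hi f13_sgn hs (by rw [ZMod.card]; norm_num) (x := 2) (by decide)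
  have h2 : cv f13 f13 (2 : ZMod 13) ≠ -1 := by
    unfold cv
    decide
  exact h2 h1

/-- rings with a square root of `-1` -/
theorem exists_ring (n : ℕ) (hn : ∀ p, p.Prime → p ∣ n → p ^ n.factorization p % 4 = 1) (h0 : n ≠ 0) :
    ∃ (R : Type) (_ : CommRing R) (_ : Fintype R) (i : R), Fintype.card R = n ∧ i * i = -1 := by
  induction n using Nat.recOnPosPrimePosCoprime with
  | zero => exact absurd rfl h0
  | one => exact ⟨ZMod 1, inferInstance, inferInstance, 0, by decide, by decide⟩
  | prime_pow p k hp hk =>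
    haveI : Fact p.Prime := ⟨hp⟩
    haveI : Finite (GaloisField p k) := inferInstance
    haveI : Fintype (GaloisField p k) := Fintype.ofFinite _
    have hcard : Fintype.card (GaloisField p k) = p ^ k := by
      rw [← Nat.card_eq_fintype_card, GaloisField.card p k hk.ne']
    have h1 := hn p hp (dvd_pow_self p hk.ne')
    rw [Nat.Prime.factorization_pow hp, Finsupp.single_eq_same] at h1
    have hsq : IsSquare (-1 : GaloisField p k) := by
      rw [FiniteField.isSquare_neg_one_iff, hcard, h1]
      norm_num
    obtain ⟨i, hi⟩ := hsq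
    exact ⟨GaloisField p k, inferInstance, inferInstance, i, hcard, hi.symm⟩
  | coprime a b ha hb hab iha ihb =>
    have hfa : ∀ p, p.Prime → p ∣ a → p ^ a.factorization p % 4 = 1 := by
      intro p hp hpa
      have := hn p hp (hpa.mul_right b)
      rw [Nat.factorization_mul_apply_of_coprime hab] at this
      have hpb : b.factorization p = 0 := by
        apply Nat.factorization_eq_zero_of_not_dvd
        intro hpb
        have := Nat.dvd_gcd hpa hpb
        rw [Nat.Coprime.gcd_eq_one hab] at this
        exact hp.one_lt.ne' (Nat.dvd_one.1 this)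
      rwa [hpb, add_zero] at this
    have hfb : ∀ p, p.Prime → p ∣ b → p ^ b.factorization p % 4 = 1 := by
      intro p hp hpb
      have := hn p hp (hpb.mul_left a)
      rw [Nat.factorization_mul_apply_of_coprime hab] at this
      have hpa : a.factorization p = 0 := by
        apply Nat.factorization_eq_zero_of_not_dvd
        intro hpa
        have := Nat.dvd_gcd hpa hpb
        rw [Nat.Coprime.gcd_eq_one hab] at this
        exact hp.one_lt.ne' (Nat.dvd_one.1 this)
      rwa [hpa, zero_add] at this
    obtain ⟨R, _, _, i, hR, hi⟩ := iha hfa (by omega)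
    obtain ⟨R', _, _, i', hR', hi'⟩ := ihb hfb (by omega)
    refine ⟨R × R', inferInstance, inferInstance, (i, i'), ?_, ?_⟩
    · rw [Fintype.card_prod, hR, hR']
    · rw [Prod.mk_mul_mk, hi, hi']; rfl

theorem result : ∀ n : ℕ, 13 ≤ n → (∀ p, p.Prime → p ∣ n → p ^ n.factorization p % 4 = 1) →
    Bad n := by
  classical
  intro n hn hp
  by_cases h17 : 17 ≤ n
  · obtain ⟨R, _, _, i, hR, hi⟩ := exists_ring n hp (by omega)
    have hodd : ¬ 2 ∣ n := by
      intro h2
      have h3 := hp 2 Nat.prime_two h2
      have h4 : n.factorization 2 ≠ 0 := by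
        have := (Nat.Prime.dvd_iff_one_le_factorization Nat.prime_two (by omega)).1 h2
        omega
      obtain ⟨m, hm⟩ := Nat.exists_eq_succ_of_ne_zero h4
      rw [hm, pow_succ] at h3
      omega
    have h2 : ∀ x : R, 2 * x = 0 → x = 0 := by
      intro x hx
      have h3 : addOrderOf x ∣ 2 := by
        apply addOrderOf_dvd_of_nsmul_eq_zero
        rw [two_nsmul, ← two_mul, hx]
      have h4 : addOrderOf x ∣ n := by
        rw [← hR]
        exact addOrderOf_dvd_card
      have h5 : addOrderOf x = 1 := by
        rcases (Nat.dvd_prime Nat.prime_two).1 h3 with h | h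
        · exact h
        · exfalso
          rw [h] at h4
          exact hodd h4
      exact AddMonoid.addOrderOf_eq_one_iff.1 h5
    have := bad_of_ring hi h2 (by rw [hR]; exact h17)
    rwa [hR] at this
  · have hn' : n = 13 ∨ n = 14 ∨ n = 15 ∨ n = 16 := by omega
    rcases hn' with rfl | rfl | rfl | rfl
    · exact bad13
    · exfalso
      have := hp 7 (by norm_num) (by norm_num)
      have h7 : (14 : ℕ).factorization 7 = 1 := by
        rw [show (14 : ℕ) = 2 * 7 by norm_num, Nat.factorization_mul (by norm_num) (by norm_num)]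
        rw [Nat.Prime.factorization Nat.prime_two, Nat.Prime.factorization (by norm_num : Nat.Prime 7)]
        simp
      rw [h7] at this
      norm_num at this
    · exfalso
      have := hp 3 (by norm_num) (by norm_num)
      have h7 : (15 : ℕ).factorization 3 = 1 := by
        rw [show (15 : ℕ) = 3 * 5 by norm_num, Nat.factorization_mul (by norm_num) (by norm_num)]
        rw [Nat.Prime.factorization Nat.prime_three, Nat.Prime.factorization Nat.prime_five]
        simp
      rw [h7] at this
      norm_num at this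
    · exfalso
      have := hp 2 (by norm_num) (by norm_num)
      have h7 : (16 : ℕ).factorization 2 = 4 := by
        rw [show (16 : ℕ) = 2 ^ 4 by norm_num, Nat.Prime.factorization_pow Nat.prime_two]
        simp
      rw [h7] at this
      norm_num at this

end Pool.Agent.Results.MP_a93e77_co.AllOrders
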